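import Pool.Agent.Q98.SPN.Stm

/-!
Project GSP, package WORD: the trace moments are dominated by the scalar ones.
-/

set_option autoImplicit false

open scoped Matrix.Norms.L2Operator Matrix
open Finset

namespace Pool.Agent.U606.GSP.WORD

open Pool.Agent.H172R2.GS (sg XX arrays)
open Pool.Agent.Q98.SPN

lemma norm_one_le (d : ℕ) : ‖(1 : Matrix (Fin d) (Fin d) ℂ)‖ ≤ 1 := by
  rw [← Matrix.diagonal_one, Matrix.l2_opNorm_diagonal]
  rw [pi_norm_le_iff_of_nonneg zero_le_one]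
  intro i
  simp

lemma entry_le {d : ℕ} (P : Matrix (Fin d) (Fin d) ℂ) (i : Fin d) : ‖P i i‖ ≤ ‖P‖ := by
  have h := Matrix.l2_opNorm_mulVec P (EuclideanSpace.single i (1 : ℂ))
  rw [PiLp.norm_single, norm_one, mul_one] at h
  refine le_trans ?_ h
  have h1 := PiLp.norm_apply_le (WithLp.toLp 2 (P *ᵥ ⇑(EuclideanSpace.single i (1 : ℂ)))) i
  refine le_trans (le_of_eq ?_) h1
  congr 1
  simp [Matrix.mulVec, dotProduct]

lemma re_trace_le {d : ℕ} (P : Matrix (Fin d) (Fin d) ℂ) (hP : ‖P‖ ≤ 1) :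
    (Matrix.trace P).re ≤ d := by
  unfold Matrix.trace
  rw [Complex.re_sum]
  calc ∑ i, (P.diag i).re ≤ ∑ _i : Fin d, (1 : ℝ) := by
        refine Finset.sum_le_sum fun i _ => ?_
        exact (Complex.re_le_norm _).trans ((entry_le P i).trans hP)
    _ = d := by simp

lemma sum_prod_nonneg {J : Type} [Fintype J] [DecidableEq J] (a : J → ℕ) :
    0 ≤ ∑ ε : J → Bool, ∏ g, sg (ε g) ^ a g := by
  have h := Finset.prod_univ_sum (fun _ : J => (Finset.univ : Finset Bool))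
    (fun g b => sg b ^ a g)
  rw [Fintype.piFinset_univ] at h
  rw [← h]
  refine Finset.prod_nonneg fun g _ => ?_
  rw [Fintype.sum_bool]
  unfold sg
  simp only [if_true, Bool.false_eq_true, if_false, one_pow]
  rcases neg_one_pow_eq_or ℝ (a g) with h | h <;> rw [h] <;> norm_num

lemma XX_ct {J : Type} [Fintype J] {d : ℕ} (A : J → Matrix (Fin d) (Fin d) ℂ) (ε : J → Bool) :
    (XX A ε)ᴴ = ∑ g, ((sg (ε g) : ℝ) : ℂ) • (A g)ᴴ := by
  unfold XX
  rw [Matrix.conjTranspose_sum]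
  refine Finset.sum_congr rfl fun g _ => ?_
  rw [Matrix.conjTranspose_smul]
  congr 1
  simp

lemma words {J : Type} [Fintype J] [DecidableEq J] {d : ℕ} (A : J → Matrix (Fin d) (Fin d) ℂ)
    (hA : ∀ g, ‖A g‖ ≤ 1) (κ : ℕ) :
    ∃ (Ω : Type) (_ : Fintype Ω) (a : Ω → J → ℕ) (P : Ω → Matrix (Fin d) (Fin d) ℂ),
      (∀ ω, ‖P ω‖ ≤ 1) ∧
      (∀ ε : J → Bool, ((XX A ε)ᴴ * XX A ε) ^ κ =
        ∑ ω, ((∏ g, sg (ε g) ^ a ω g : ℝ) : ℂ) • P ω) ∧
      (∀ ε : J → Bool, (∑ g, sg (ε g)) ^ (2 * κ) = ∑ ω, ∏ g, sg (ε g) ^ a ω g) := by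
  induction κ with
  | zero =>
    refine ⟨Unit, inferInstance, fun _ _ => 0, fun _ => 1, fun _ => norm_one_le d, ?_, ?_⟩
    · intro ε
      simp
    · intro ε
      simp
  | succ κ ih =>
    obtain ⟨Ω, _, a, P, hP, h1, h2⟩ := ih
    have hprod : ∀ (ε : J → Bool) (ω : Ω) (g h : J),
        ∏ x, sg (ε x) ^ (a ω x + (if x = g then 1 else 0) + (if x = h then 1 else 0)) =
          (∏ x, sg (ε x) ^ a ω x) * (sg (ε g) * sg (ε h)) := by
      intro ε ω g h
      simp_rw [pow_add]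
      rw [Finset.prod_mul_distrib, Finset.prod_mul_distrib, mul_assoc]
      congr 2
      · rw [Finset.prod_eq_single g]
        · simp
        · intro x _ hx
          simp [hx]
        · intro hx
          exact absurd (mem_univ g) hx
      · rw [Finset.prod_eq_single h]
        · simp
        · intro x _ hx
          simp [hx]
        · intro hx
          exact absurd (mem_univ h) hx
    refine ⟨Ω × (J × J), inferInstance,
      fun w x => a w.1 x + (if x = w.2.1 then 1 else 0) + (if x = w.2.2 then 1 else 0),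
      fun w => P w.1 * ((A w.2.1)ᴴ * A w.2.2), ?_, ?_, ?_⟩
    · rintro ⟨ω, g, h⟩
      have h3 : ‖(A g)ᴴ * A h‖ ≤ 1 := by
        refine (norm_mul_le _ _).trans ?_
        rw [Matrix.l2_opNorm_conjTranspose]
        calc ‖A g‖ * ‖A h‖ ≤ 1 * 1 := mul_le_mul (hA g) (hA h) (norm_nonneg _) zero_le_one
          _ = 1 := one_mul 1
      calc ‖P ω * ((A g)ᴴ * A h)‖ ≤ ‖P ω‖ * ‖(A g)ᴴ * A h‖ := norm_mul_le _ _
        _ ≤ 1 * 1 := mul_le_mul (hP ω) h3 (norm_nonneg _) zero_le_one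
        _ = 1 := one_mul 1
    · intro ε
      rw [pow_succ, h1 ε, XX_ct]
      simp only [hprod]
      unfold XX
      rw [Fintype.sum_prod_type, Finset.sum_mul]
      refine Finset.sum_congr rfl fun ω _ => ?_
      rw [Fintype.sum_prod_type, Finset.sum_mul_sum, Finset.mul_sum]
      refine Finset.sum_congr rfl fun g _ => ?_
      rw [Finset.mul_sum]
      refine Finset.sum_congr rfl fun h _ => ?_
      rw [smul_mul_smul_comm, smul_mul_smul_comm]
      push_cast
      rfl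
    · intro ε
      rw [Nat.mul_succ, pow_add, h2 ε]
      simp only [hprod]
      rw [Fintype.sum_prod_type, Finset.sum_mul]
      refine Finset.sum_congr rfl fun ω _ => ?_
      rw [Fintype.sum_prod_type, pow_two, Finset.sum_mul_sum, Finset.mul_sum]
      refine Finset.sum_congr rfl fun g _ => ?_
      rw [Finset.mul_sum]

theorem t_WORD : S_WORD := by
  intro J _ _ d A κ hA
  obtain ⟨Ω, _, a, P, hP, h1, h2⟩ := words A hA κ
  have h3 : ∀ ε : J → Bool, tk κ (XX A ε) =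
      ∑ ω, (∏ g, sg (ε g) ^ a ω g) * (Matrix.trace (P ω)).re := by
    intro ε
    unfold tk
    rw [h1 ε, Matrix.trace_sum, Complex.re_sum]
    refine Finset.sum_congr rfl fun ω _ => ?_
    rw [Matrix.trace_smul, smul_eq_mul, Complex.re_ofReal_mul]
  have h4 : ∑ ε : J → Bool, tk κ (XX A ε) =
      ∑ ω, (∑ ε : J → Bool, ∏ g, sg (ε g) ^ a ω g) * (Matrix.trace (P ω)).re := by
    simp_rw [h3, Finset.sum_mul]
    exact Finset.sum_comm
  have h5 : ∑ ε : J → Bool, (∑ g, sg (ε g)) ^ (2 * κ) =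
      ∑ ω, ∑ ε : J → Bool, ∏ g, sg (ε g) ^ a ω g := by
    simp_rw [h2]
    exact Finset.sum_comm
  rw [h4, h5, Finset.mul_sum]
  refine Finset.sum_le_sum fun ω _ => ?_
  rw [mul_comm (d : ℝ)]
  exact mul_le_mul_of_nonneg_left (re_trace_le (P ω) (hP ω)) (sum_prod_nonneg (a ω))

end Pool.Agent.U606.GSP.WORD
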